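import Pool.Agent.TBP.StmtsA

/-!
# Squad TBP, row STA (helper67)
-/

set_option autoImplicit false

namespace Pool.Agent.TBP.H67

open Finset Pool.Agent.TBP
open scoped Pointwise

theorem sta : StaStmt := by
  intro J k t σ hk
  have hg : Nat.gcd (WW J) k ∣ lf J σ k t := by
    unfold lf
    rw [← Int.natCast_dvd]
    apply dvd_add
    · exact dvd_mul_of_dvd_left (Int.natCast_dvd_natCast.2 (Nat.gcd_dvd_left _ _)) _
    · exact dvd_mul_of_dvd_right (Int.natCast_dvd_natCast.2 (Nat.gcd_dvd_right _ _)) _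
  refine ⟨hg, ?_⟩
  have h1 : lf J σ k t = Nat.gcd (WW J) k * (lf J σ k t / Nat.gcd (WW J) k) :=
    (Nat.mul_div_cancel' hg).symm
  have h2 : (lf J σ k t).divisors.card ≤
      (Nat.gcd (WW J) k).divisors.card * (lf J σ k t / Nat.gcd (WW J) k).divisors.card := by
    calc (lf J σ k t).divisors.card
        = ((Nat.gcd (WW J) k).divisors * (lf J σ k t / Nat.gcd (WW J) k).divisors).card := by
          rw [← Nat.divisors_mul, ← h1]
      _ ≤ _ := Finset.card_mul_le
  refine h2.trans (Nat.mul_le_mul_right _ (card_le_card ?_))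
  exact Nat.divisors_subset_of_dvd (by omega) (Nat.gcd_dvd_right _ _)

end Pool.Agent.TBP.H67
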